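import Mathlib

/-!
Quasi-identities of semigroups, finite bases, and the three-element monoids `L` and `R`.
-/

set_option autoImplicit false

namespace Pool.Agent.H376Z.QB

universe u

/-- A quasi-identity `(u₁ = v₁) ∧ ⋯ ∧ (uₙ = vₙ) ⇒ u = v`: the list of the pairs `(uᵢ, vᵢ)` and the
pair `(u, v)`; words are elements of the free semigroup on the variables `0, 1, 2, …`. -/
abbrev QI : Type :=
  List (FreeSemigroup ℕ × FreeSemigroup ℕ) × (FreeSemigroup ℕ × FreeSemigroup ℕ)

/-- The quasi-identity `q` is true in the semigroup `S`: every assignment of the variables which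
satisfies all premises satisfies the conclusion. -/
def Holds (S : Type u) [Semigroup S] (q : QI) : Prop :=
  ∀ f : ℕ → S, (∀ p ∈ q.1, FreeSemigroup.lift f p.1 = FreeSemigroup.lift f p.2) →
    FreeSemigroup.lift f q.2.1 = FreeSemigroup.lift f q.2.2

/-- `S` has a finite basis for its quasi-identities: a finite set `B` of quasi-identities true in
`S` such that every quasi-identity true in `S` is true in every semigroup in which all members
of `B` are true. -/
def FinitelyQBased (S : Type u) [Semigroup S] : Prop :=
  ∃ B : Set QI, B.Finite ∧ (∀ b ∈ B, Holds S b) ∧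
    ∀ q : QI, Holds S q → ∀ (T : Type) [Semigroup T], (∀ b ∈ B, Holds T b) → Holds T q

/-- The three-element monoid `L = {0, +, -}`. -/
inductive L : Type
  | zero : L
  | plus : L
  | minus : L
  deriving DecidableEq

/-- `0` is the identity, `+` and `-` are left zeros. -/
def L.mul : L → L → L
  | L.zero, y => y
  | L.plus, _ => L.plus
  | L.minus, _ => L.minus

instance : Semigroup L where
  mul := L.mul
  mul_assoc a b c := by cases a <;> rfl

/-- The three-element monoid `R = {0, +, -}`. -/
inductive R : Type
  | zero : R
  | plus : R
  | minus : R
  deriving DecidableEq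

/-- `0` is the identity, `+` and `-` are right zeros. -/
def R.mul : R → R → R
  | x, R.zero => x
  | _, R.plus => R.plus
  | _, R.minus => R.minus

instance : Semigroup R where
  mul := R.mul
  mul_assoc a b c := by cases c <;> rfl

end Pool.Agent.H376Z.QB
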