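import Pool.Agent.H376Z.QB.Defs

/-!
A criterion for having no finite basis of quasi-identities.
-/

set_option autoImplicit false

namespace Pool.Agent.H376Z.QB

universe u

/-- all letters of `w` are below `n` -/
def Below (n : ℕ) (w : FreeSemigroup ℕ) : Prop :=
  ∀ (T : Type) [Semigroup T] (f g : ℕ → T), (∀ i < n, f i = g i) →
    FreeSemigroup.lift f w = FreeSemigroup.lift g w

theorem Below.mono {n m : ℕ} {w : FreeSemigroup ℕ} (h : Below n w) (hnm : n ≤ m) : Below m w :=
  fun T _ f g hfg => h T f g fun i hi => hfg i (lt_of_lt_of_le hi hnm)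

theorem exists_below (w : FreeSemigroup ℕ) : ∃ n, Below n w := by
  induction w using FreeSemigroup.recOnMul with
  | ih1 x => exact ⟨x + 1, fun T _ f g h => by simpa using h x (Nat.lt_succ_self x)⟩
  | ih2 x y hx hy =>
    obtain ⟨n, hn⟩ := hx
    obtain ⟨m, hm⟩ := hy
    refine ⟨max n m, fun T _ f g h => ?_⟩
    rw [map_mul, map_mul, hn.mono (le_max_left n m) T f g h, hm.mono (le_max_right n m) T f g h]

def BelowQ (n : ℕ) (q : QI) : Prop :=
  (∀ p ∈ q.1, Below n p.1 ∧ Below n p.2) ∧ Below n q.2.1 ∧ Below n q.2.2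

theorem BelowQ.mono {n m : ℕ} {q : QI} (h : BelowQ n q) (hnm : n ≤ m) : BelowQ m q :=
  ⟨fun p hp => ⟨(h.1 p hp).1.mono hnm, (h.1 p hp).2.mono hnm⟩, h.2.1.mono hnm, h.2.2.mono hnm⟩

theorem exists_below_list (l : List (FreeSemigroup ℕ × FreeSemigroup ℕ)) :
    ∃ n, ∀ p ∈ l, Below n p.1 ∧ Below n p.2 := by
  induction l with
  | nil => exact ⟨0, fun p hp => absurd hp (List.not_mem_nil)⟩
  | cons a l ih =>
    obtain ⟨n, hn⟩ := ih
    obtain ⟨m, hm⟩ := exists_below a.1
    obtain ⟨k, hk⟩ := exists_below a.2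
    refine ⟨n + m + k, fun p hp => ?_⟩
    rcases List.mem_cons.mp hp with rfl | hp
    · exact ⟨hm.mono (by omega), hk.mono (by omega)⟩
    · exact ⟨(hn p hp).1.mono (by omega), (hn p hp).2.mono (by omega)⟩

theorem exists_belowQ (q : QI) : ∃ n, BelowQ n q := by
  obtain ⟨n, hn⟩ := exists_below_list q.1
  obtain ⟨m, hm⟩ := exists_below q.2.1
  obtain ⟨k, hk⟩ := exists_below q.2.2
  exact ⟨n + m + k, fun p hp => ⟨(hn p hp).1.mono (by omega), (hn p hp).2.mono (by omega)⟩,
    hm.mono (by omega), hk.mono (by omega)⟩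

theorem exists_below_set (B : Set QI) (hB : B.Finite) : ∃ n, ∀ b ∈ B, BelowQ n b := by
  induction B, hB using Set.Finite.induction_on with
  | empty => exact ⟨0, fun b hb => absurd hb (Set.notMem_empty b)⟩
  | @insert a s _ _ ih =>
    obtain ⟨n, hn⟩ := ih
    obtain ⟨m, hm⟩ := exists_belowQ a
    refine ⟨n + m, fun b hb => ?_⟩
    rcases Set.mem_insert_iff.mp hb with rfl | hb
    · exact hm.mono (by omega)
    · exact (hn b hb).mono (by omega)

theorem lift_local {T : Type} [Semigroup T] {S : Type u} [Semigroup S] (U : Set T)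
    (hU : ∀ a ∈ U, ∀ b ∈ U, a * b ∈ U) (φ : T → S)
    (hφ : ∀ a ∈ U, ∀ b ∈ U, φ (a * b) = φ a * φ b) (f : ℕ → T) (hf : ∀ i, f i ∈ U)
    (w : FreeSemigroup ℕ) :
    FreeSemigroup.lift f w ∈ U ∧
      φ (FreeSemigroup.lift f w) = FreeSemigroup.lift (fun i => φ (f i)) w := by
  induction w using FreeSemigroup.recOnMul with
  | ih1 x => simpa using hf x
  | ih2 x y hx hy =>
    rw [map_mul, map_mul]
    exact ⟨hU _ hx.1 _ hy.1, by rw [hφ _ hx.1 _ hy.1, hx.2, hy.2]⟩

/-- `n`-generated parts of `T` are separated by homomorphisms into `M`. -/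
def LocSep (n : ℕ) (T M : Type) [Semigroup T] [Semigroup M] : Prop :=
  ∀ F : Finset T, F.card ≤ n → ∃ U : Set T, (∀ a ∈ F, a ∈ U) ∧ (∀ a ∈ U, ∀ b ∈ U, a * b ∈ U) ∧
    ∀ u ∈ U, ∀ v ∈ U, u ≠ v → ∃ φ : T → M,
      (∀ a ∈ U, ∀ b ∈ U, φ (a * b) = φ a * φ b) ∧ φ u ≠ φ v

theorem holds_of_locSep {S : Type u} [Semigroup S] {M T : Type} [Semigroup M] [Semigroup T]
    (ι : M →ₙ* S) (hι : Function.Injective ι) {n : ℕ} (hT : LocSep (n + 1) T M) (b : QI)
    (hb : BelowQ (n + 1) b) (hS : Holds S b) : Holds T b := by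
  classical
  intro f hf
  obtain ⟨U, hFU, hU, hsep⟩ := hT ((Finset.range (n + 1)).image f)
    (Finset.card_image_le.trans (by simp))
  let g : ℕ → T := fun i => if i < n + 1 then f i else f 0
  have hg : ∀ i, g i ∈ U := by
    intro i
    by_cases h : i < n + 1
    · simp only [g, if_pos h]
      exact hFU _ (Finset.mem_image_of_mem f (Finset.mem_range.mpr h))
    · simp only [g, if_neg h]
      exact hFU _ (Finset.mem_image_of_mem f (Finset.mem_range.mpr (Nat.succ_pos n)))
  have hfg : ∀ i < n + 1, f i = g i := fun i hi => by simp only [g, if_pos hi]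
  rw [hb.2.1 T f g hfg, hb.2.2 T f g hfg]
  by_contra hne
  have hU1 := fun w => (lift_local U hU (fun t => t) (fun _ _ _ _ => rfl) g hg w).1
  obtain ⟨φ, hφ, hne'⟩ := hsep _ (hU1 _) _ (hU1 _) hne
  have key := fun w => (lift_local U hU (fun t => ι (φ t))
    (fun a ha b hb => by simp only [hφ a ha b hb, map_mul]) g hg w).2
  have := hS (fun i => ι (φ (g i))) (fun p hp => by
    rw [← key, ← key, ← (hb.1 p hp).1 T f g hfg, ← (hb.1 p hp).2 T f g hfg, hf p hp])
  rw [← key, ← key] at this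
  exact hne' (hι this)

theorem not_finitelyQBased {S : Type u} [Semigroup S] {M : Type} [Semigroup M]
    (ι : M →ₙ* S) (hι : Function.Injective ι)
    (H : ∀ n : ℕ, ∃ (T : Type) (_ : Semigroup T) (_ : Finite T), LocSep n T M ∧
      ∃ x y : T, x ≠ y ∧ ∀ φ : T →ₙ* S, φ x = φ y) :
    ¬ FinitelyQBased S := by
  classical
  rintro ⟨B, hB, hBS, himp⟩
  obtain ⟨n, hn⟩ := exists_below_set B hB
  obtain ⟨T, _, _, hT, x, y, hxy, hcol⟩ := H (n + 1)
  have _ := Fintype.ofFinite T
  obtain ⟨enc, henc⟩ := exists_injective_nat T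
  have _ : Nonempty T := ⟨x⟩
  let q : QI := (((Finset.univ : Finset (T × T)).toList.map fun p =>
    (FreeSemigroup.of (enc p.1) * FreeSemigroup.of (enc p.2), FreeSemigroup.of (enc (p.1 * p.2)))),
    (FreeSemigroup.of (enc x), FreeSemigroup.of (enc y)))
  have hq : Holds S q := by
    intro f hf
    let φ : T →ₙ* S := ⟨fun t => f (enc t), fun a b => by
      have := hf _ (List.mem_map.mpr ⟨(a, b), by simp, rfl⟩)
      simpa using this.symm⟩
    exact hcol φ
  have hTq := himp q hq T fun b hb =>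
    holds_of_locSep ι hι hT b ((hn b hb).mono (Nat.le_succ n)) (hBS b hb)
  have hdec : ∀ t, Function.invFun enc (enc t) = t := Function.leftInverse_invFun henc
  have := hTq (Function.invFun enc) (fun p hp => by
    obtain ⟨a, _, rfl⟩ := List.mem_map.mp hp
    simp [hdec])
  apply hxy
  simpa [q, hdec] using this

end Pool.Agent.H376Z.QB
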