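import Pool.Agent.H376Z.QB.General

/-!
The semigroup of the edges and vertices of a graph mapped to a hypercube, for the graph that
consists of `m` paths of length `2 N` with common end points.
-/

set_option autoImplicit false

namespace Pool.Agent.H376Z.QB

universe u

def ofB (b : Bool) : L := if b then L.plus else L.minus

theorem ofB_ne (b : Bool) : ofB b ≠ L.zero := by cases b <;> simp [ofB]

theorem ofB_mul (b : Bool) (y : L) : ofB b * y = ofB b := by cases b <;> rfl

theorem ofB_inj {a b : Bool} (h : ofB a = ofB b) : a = b := by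
  cases a <;> cases b <;> simp_all [ofB]

theorem zero_mul' (y : L) : L.zero * y = y := rfl

/-- A graph with vertices `X`, edges `A`, mapped to the cube with coordinates `E`. -/
structure Gr (X A E : Type) where
  cl : A → E
  c : X → E → Bool
  p : A → Bool → X
  h1 : ∀ a b, c (p a b) (cl a) = b
  h2 : ∀ a b Q, Q ≠ cl a → c (p a b) Q = c (p a true) Q

/-- edges and vertices -/
inductive El {X A E : Type} (G : Gr X A E) : Type
  | e : A → El G
  | v : X → El G

variable {X A E : Type} [DecidableEq E] {G : Gr X A E}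

def El.s : El G → E → L
  | El.e a, Q => if Q = G.cl a then L.zero else ofB (G.c (G.p a true) Q)
  | El.v x, Q => ofB (G.c x Q)

def act (G : Gr X A E) (a : A) : L → El G
  | L.zero => El.e a
  | L.plus => El.v (G.p a true)
  | L.minus => El.v (G.p a false)

def El.mul : El G → El G → El G
  | El.e a, t => act G a (t.s (G.cl a))
  | El.v x, _ => El.v x

theorem s_mul (t u : El G) (Q : E) : (El.mul t u).s Q = t.s Q * u.s Q := by
  cases t with
  | v x => simp only [El.mul, El.s, ofB_mul]
  | e a =>
    by_cases hQ : Q = G.cl a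
    · subst hQ
      simp only [El.mul]
      rcases h : u.s (G.cl a) with _ | _ | _ <;>
        simp [act, El.s, zero_mul', G.h1, ofB]
    · simp only [El.mul]
      rcases h : u.s (G.cl a) with _ | _ | _ <;>
        simp [act, El.s, hQ, ofB_mul, G.h2 a false Q hQ]

instance : Semigroup (El G) where
  mul := El.mul
  mul_assoc t u w := by
    show El.mul (El.mul t u) w = El.mul t (El.mul u w)
    cases t with
    | v x => rfl
    | e a =>
      have : El.mul (El.e a) (El.mul u w) = act G a (u.s (G.cl a) * w.s (G.cl a)) := by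
        rw [← s_mul]; rfl
      rw [this]
      show El.mul (act G a (u.s (G.cl a))) w = _
      rcases u.s (G.cl a) with _ | _ | _ <;> rfl

theorem e_mul (a : A) (t : El G) : El.e a * t = act G a (t.s (G.cl a)) := rfl

theorem v_mul (x : X) (t : El G) : (El.v x : El G) * t = El.v x := rfl

theorem s_mul' (t u : El G) (Q : E) : (t * u).s Q = t.s Q * u.s Q := s_mul t u Q

omit [DecidableEq E] in
theorem act_ofB (a : A) (b : Bool) : act G a (ofB b) = El.v (G.p a b) := by cases b <;> rfl

instance [Finite X] [Finite A] : Finite (El G) :=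
  Finite.of_surjective (Sum.elim El.e El.v : A ⊕ X → El G) (by
    rintro (a | x)
    · exact ⟨Sum.inl a, rfl⟩
    · exact ⟨Sum.inr x, rfl⟩)

/-- two non-parallel edges with the same image are collapsed -/
theorem collapse {S : Type u} [Semigroup S] (φ : El G →ₙ* S) (a b : A) (hab : G.cl a ≠ G.cl b)
    (h : φ (El.e a) = φ (El.e b)) (β : Bool) : φ (El.v (G.p a β)) = φ (El.e a) := by
  have h1 : (El.e a : El G) * El.e a = El.e a := by simp [e_mul, El.s, act]
  have h2 : (El.e a : El G) * El.e b = El.v (G.p a (G.c (G.p b true) (G.cl a))) := by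
    simp [e_mul, El.s, hab, act_ofB]
  have h3 : (El.e a : El G) * El.v (G.p a β) = El.v (G.p a β) := by
    simp [e_mul, El.s, G.h1, act_ofB]
  have h4 : φ (El.e a) = φ (El.v (G.p a (G.c (G.p b true) (G.cl a)))) := by
    rw [← h2, map_mul, ← h, ← map_mul, h1]
  rw [← h3, map_mul, h4, ← map_mul, v_mul]

/-! ### The theta graph -/

abbrev TX (m N : ℕ) : Type := Bool ⊕ (Fin m × Fin (2 * N - 1))
abbrev TA (m N : ℕ) : Type := Fin m × Fin N × Bool
abbrev TE (m N : ℕ) : Type := Fin m × Fin N

def vtx {m : ℕ} (N : ℕ) (i : Fin m) (j : ℕ) : TX m N :=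
  if j = 0 then Sum.inl false else
    if h : j - 1 < 2 * N - 1 then Sum.inr (i, ⟨j - 1, h⟩) else Sum.inl true

def col {m N : ℕ} : TX m N → TE m N → Bool
  | Sum.inl _, _ => false
  | Sum.inr w, Q => decide (Q.1 = w.1 ∧ Q.2.val ≤ w.2.val ∧ w.2.val < Q.2.val + N)

theorem col_vtx {m N : ℕ} (i : Fin m) (j : ℕ) (hj : j ≤ 2 * N) (Q : TE m N) :
    col (vtx N i j) Q = decide (Q.1 = i ∧ Q.2.val < j ∧ j ≤ Q.2.val + N) := by
  have := Q.2.isLt
  unfold vtx
  split_ifs with h1 h2
  · subst h1; simp [col]
  · simp only [col]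
    congr 1
    apply propext
    constructor <;> rintro ⟨h3, h4, h5⟩ <;> refine ⟨h3, ?_, ?_⟩ <;> omega
  · simp only [col]
    symm
    rw [decide_eq_false_iff_not]
    rintro ⟨_, h4, h5⟩
    omega

/-- position of an edge on its path -/
def pos {m N : ℕ} (a : TA m N) : ℕ := if a.2.2 then a.2.1.val + N else a.2.1.val

def endp {m N : ℕ} (a : TA m N) (b : Bool) : ℕ := if b = a.2.2 then pos a else pos a + 1

theorem pos_lt {m N : ℕ} (a : TA m N) : pos a < 2 * N := by
  have := a.2.1.isLt
  unfold pos; split_ifs <;> omega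

theorem endp_le {m N : ℕ} (a : TA m N) (b : Bool) : endp a b ≤ 2 * N := by
  have := pos_lt a
  unfold endp; split_ifs <;> omega

def theta (m N : ℕ) : Gr (TX m N) (TA m N) (TE m N) where
  cl a := (a.1, a.2.1)
  c := col
  p a b := vtx N a.1 (endp a b)
  h1 := by
    rintro ⟨i, k, β⟩ b
    have := k.isLt
    rw [col_vtx _ _ (endp_le _ _)]
    cases b <;> cases β <;> simp [endp, pos] <;> omega
  h2 := by
    rintro ⟨i, k, β⟩ b ⟨i', k'⟩ hQ
    have := k.isLt
    have := k'.isLt
    rw [col_vtx _ _ (endp_le _ _), col_vtx _ _ (endp_le _ _)]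
    by_cases hi : i' = i
    · have hk : k'.val ≠ k.val := fun h => hQ (by rw [hi, Fin.ext h])
      rw [decide_eq_decide]
      cases b <;> cases β <;> simp [endp, pos, hi] <;> omega
    · simp [hi]

theorem exists_edge {m N : ℕ} (i : Fin m) (j : ℕ) (hj : j < 2 * N) :
    ∃ a : TA m N, a.1 = i ∧ pos a = j := by
  by_cases h : j < N
  · exact ⟨(i, ⟨j, h⟩, false), rfl, by simp [pos]⟩
  · exact ⟨(i, ⟨j - N, by omega⟩, true), rfl, by simp [pos]; omega⟩

theorem theta_collapse {S : Type u} [Semigroup S] [Finite S] (N : ℕ) (hN : 0 < N)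
    (φ : El (theta (Nat.card S + 1) N) →ₙ* S) :
    φ (El.v (Sum.inl false)) = φ (El.v (Sum.inl true)) := by
  by_cases h : ∃ i, ∀ a : TA (Nat.card S + 1) N, a.1 = i →
      φ (El.v (vtx N a.1 (endp a true))) = φ (El.v (vtx N a.1 (endp a false)))
  · obtain ⟨i, hi⟩ := h
    have key : ∀ j ≤ 2 * N, φ (El.v (vtx N i j)) = φ (El.v (Sum.inl false)) := by
      intro j
      induction j with
      | zero => intro _; simp [vtx]
      | succ j ih =>
        intro hj
        obtain ⟨a, ha, hp⟩ := exists_edge (N := N) i j (by omega)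
        have h1 := hi a ha
        rw [← ih (by omega)]
        rw [ha] at h1
        cases hb : a.2.2 <;> simp [endp, hb, hp] at h1
        · exact h1
        · exact h1.symm
    have := key (2 * N) le_rfl
    rw [← this]
    have h0 : 2 * N ≠ 0 := by omega
    simp [vtx, h0]
  · exfalso
    push Not at h
    choose a ha hne using h
    have hinj : Function.Injective fun i => φ (El.e (a i)) := by
      intro i j hij
      by_contra hne'
      have hcl : (theta _ N).cl (a i) ≠ (theta _ N).cl (a j) := by
        intro hc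
        have := congrArg Prod.fst hc
        exact hne' ((ha i).symm.trans (this.trans (ha j)))
      exact hne i ((collapse φ _ _ hcl hij true).trans (collapse φ _ _ hcl hij false).symm)
    have := Nat.card_le_card_of_injective _ hinj
    simp at this

theorem col_inj {m N : ℕ} (x y : TX m N) (h : ∀ Q, col x Q = col y Q) :
    x = y ∨ (∃ b b', x = Sum.inl b ∧ y = Sum.inl b') := by
  have ex : ∀ w : Fin m × Fin (2 * N - 1), ∃ k : Fin N, col (Sum.inr w : TX m N) (w.1, k) = true := by
    rintro ⟨i, j⟩
    have := j.isLt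
    by_cases hj : j.val < N
    · exact ⟨⟨j.val, hj⟩, by simp [col]; omega⟩
    · exact ⟨⟨N - 1, by omega⟩, by simp [col]; omega⟩
  rcases x with b | ⟨i, j⟩ <;> rcases y with b' | ⟨i', j'⟩
  · exact Or.inr ⟨b, b', rfl, rfl⟩
  · obtain ⟨k, hk⟩ := ex (i', j')
    rw [← h] at hk
    simp [col] at hk
  · obtain ⟨k, hk⟩ := ex (i, j)
    rw [h] at hk
    simp [col] at hk
  · left
    obtain ⟨k, hk⟩ := ex (i, j)
    rw [h] at hk
    have hi : i = i' := by
      simp only [col, decide_eq_true_eq] at hk
      exact hk.1
    subst hi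
    have hj := j.isLt
    have hj' := j'.isLt
    have hh : ∀ k (hk : k < N), (k ≤ j.val ∧ j.val < k + N) ↔ (k ≤ j'.val ∧ j'.val < k + N) := by
      intro k hk
      have := h (i, ⟨k, hk⟩)
      simp only [col, decide_eq_decide, true_and] at this
      exact this
    have : j.val = j'.val := by
      have h0 := hh 0 (by omega)
      by_cases h1 : j.val + 1 < N
      · have h2 := hh _ h1
        by_cases h3 : j'.val + 1 < N
        · have h4 := hh _ h3
          omega
        · have h4 := hh (j'.val + 1 - N) (by omega)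
          omega
      · have h2 := hh (j.val + 1 - N) (by omega)
        by_cases h3 : j'.val + 1 < N
        · have h4 := hh _ h3
          omega
        · have h4 := hh (j'.val + 1 - N) (by omega)
          omega
    rw [Fin.ext this]

theorem s_inj {m N : ℕ} (hN : 2 ≤ N) (t u : El (theta m N)) (h : ∀ Q, t.s Q = u.s Q) :
    t = u ∨ (∃ b b', t = El.v (Sum.inl b) ∧ u = El.v (Sum.inl b')) := by
  rcases t with a | x <;> rcases u with b | y
  · left
    have h1 := h ((theta m N).cl a)
    have hcl : (theta m N).cl a = (theta m N).cl b := by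
      by_contra hc
      simp only [El.s, if_pos, if_neg hc] at h1
      exact ofB_ne _ h1.symm
    obtain ⟨i, k, β⟩ := a
    obtain ⟨i', k', β'⟩ := b
    have hi : i = i' := congrArg Prod.fst hcl
    have hk : k = k' := congrArg Prod.snd hcl
    subst hi hk
    have : β = β' := by
      by_contra hβ
      obtain ⟨l, hl⟩ : ∃ l : Fin N, l.val ≠ k.val := by
        by_cases h0 : k.val = 0
        · exact ⟨⟨1, by omega⟩, by simp [h0]⟩
        · exact ⟨⟨0, by omega⟩, by simpa using fun h => h0 h.symm⟩
      have hne : ((i, l) : TE m N) ≠ (i, k) := fun hc => hl (congrArg (fun z => z.2.val) hc)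
      have h2 := h (i, l)
      have e1 : ∀ γ, (El.e (i, k, γ) : El (theta m N)).s (i, l) =
          ofB (col (vtx N i (endp ((i, k, γ) : TA m N) true)) (i, l)) := by
        intro γ
        show (if ((i, l) : TE m N) = (i, k) then _ else _) = _
        rw [if_neg hne]
        rfl
      rw [e1, e1] at h2
      have h3 := ofB_inj h2
      rw [col_vtx _ _ (endp_le _ _), col_vtx _ _ (endp_le _ _), decide_eq_decide] at h3
      have := k.isLt
      have := l.isLt
      cases β <;> cases β' <;> simp [endp, pos] at h3 hβ <;> omega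
    rw [this]
  · have h1 := h ((theta m N).cl a)
    simp only [El.s, if_pos] at h1
    exact absurd h1.symm (ofB_ne _)
  · have h1 := h ((theta m N).cl b)
    simp only [El.s, if_pos] at h1
    exact absurd h1 (ofB_ne _)
  · rcases col_inj x y (fun Q => ofB_inj (h Q)) with h1 | ⟨b, b', h1, h2⟩
    · left; rw [h1]
    · right; exact ⟨b, b', by rw [h1], by rw [h2]⟩

def sideV {m N : ℕ} (g : Fin m → ℕ) : TX m N → Bool
  | Sum.inl b => b
  | Sum.inr w => decide (g w.1 ≤ w.2.val)

theorem sideV_vtx {m N : ℕ} (g : Fin m → ℕ) (hg : ∀ i, g i < 2 * N) (i : Fin m) (j : ℕ)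
    (hj : j ≤ 2 * N) : sideV g (vtx N i j) = decide (g i < j) := by
  have := hg i
  unfold vtx
  split_ifs with h1 h2
  · subst h1; simp [sideV]
  · simp only [sideV]
    congr 1
    apply propext
    omega
  · simp only [sideV]
    symm
    rw [decide_eq_true_eq]
    omega

def side {m N : ℕ} (g : Fin m → ℕ) : El (theta m N) → Bool
  | El.e a => decide (g a.1 < pos a)
  | El.v x => sideV g x

theorem theta_locSep (m n : ℕ) : LocSep n (El (theta m (n + 2))) L := by
  classical
  intro F hF
  have hmiss : ∀ i : Fin m, ∃ j < 2 * (n + 2), ∀ a : TA m (n + 2), a.1 = i → pos a = j →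
      El.e a ∉ F := by
    intro i
    by_contra hc
    push Not at hc
    have _ : Nonempty (TA m (n + 2)) := ⟨(i, 0, true)⟩
    choose! a ha1 ha2 ha3 using hc
    have := Finset.card_le_card_of_injOn (s := Finset.range (2 * (n + 2))) (t := F)
      (fun j => El.e (a j)) (fun j hj => ha3 j (by simpa using hj)) (fun j hj k hk hjk => by
        have h1 : a j = a k := by injection hjk
        rw [← ha2 j (by simpa using hj), ← ha2 k (by simpa using hk), h1])
    simp at this
    omega
  choose g hg hgF using hmiss
  refine ⟨{t | ∀ a, t = El.e a → pos a ≠ g a.1}, ?_, ?_, ?_⟩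
  · rintro t ht a rfl hp
    exact hgF a.1 a rfl hp ht
  · rintro t ht u _ a hab
    apply ht a
    cases t with
    | v x => exact hab
    | e b =>
      rw [e_mul] at hab
      rcases h : u.s ((theta m (n + 2)).cl b) with _ | _ | _ <;> rw [h] at hab
      · exact hab
      · cases hab
      · cases hab
  · intro u _ v _ huv
    by_cases hs : ∀ Q, u.s Q = v.s Q
    · rcases s_inj (by omega) u v hs with h | ⟨b, b', rfl, rfl⟩
      · exact absurd h huv
      · refine ⟨fun t => ofB (side g t), ?_, ?_⟩
        · intro t ht w _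
          rw [ofB_mul]
          apply congrArg ofB
          cases t with
          | v x => rfl
          | e a =>
            have hp := ht a rfl
            have he : ∀ β, side g (El.v ((theta m (n + 2)).p a β)) = side g (El.e a) := by
              intro β
              show sideV g (vtx (n + 2) a.1 (endp a β)) = decide (g a.1 < pos a)
              rw [sideV_vtx g hg _ _ (endp_le _ _)]
              congr 1
              apply propext
              unfold endp
              split_ifs <;> omega
            rw [e_mul]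
            rcases w.s ((theta m (n + 2)).cl a) with _ | _ | _
            · rfl
            · exact he true
            · exact he false
        · intro h
          have : b = b' := ofB_inj h
          exact huv (by rw [this])
    · push Not at hs
      obtain ⟨Q, hQ⟩ := hs
      exact ⟨fun t => t.s Q, fun a _ b _ => s_mul' a b Q, hQ⟩

theorem exists_theta (S : Type u) [Semigroup S] [Finite S] (n : ℕ) :
    ∃ (T : Type) (_ : Semigroup T) (_ : Finite T), LocSep n T L ∧
      ∃ x y : T, x ≠ y ∧ ∀ φ : T →ₙ* S, φ x = φ y :=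
  ⟨El (theta (Nat.card S + 1) (n + 2)), inferInstance, inferInstance, theta_locSep _ n,
    El.v (Sum.inl false), El.v (Sum.inl true), (by intro h; injection h with h; cases h),
    theta_collapse (n + 2) (by omega)⟩

def toR : L → R
  | L.zero => R.zero
  | L.plus => R.plus
  | L.minus => R.minus

theorem toR_mul (a b : L) : toR (a * b) = toR b * toR a := by cases a <;> rfl

theorem toR_inj {a b : L} (h : toR a = toR b) : a = b := by
  cases a <;> cases b <;> first | rfl | cases h

theorem exists_theta_op (S : Type u) [Semigroup S] [Finite S] (n : ℕ) :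
    ∃ (T : Type) (_ : Semigroup T) (_ : Finite T), LocSep n T R ∧
      ∃ x y : T, x ≠ y ∧ ∀ φ : T →ₙ* S, φ x = φ y := by
  classical
  have _ : Finite Sᵐᵒᵖ := Finite.of_injective _ MulOpposite.unop_injective
  obtain ⟨T, _, _, hT, x, y, hxy, hcol⟩ := exists_theta Sᵐᵒᵖ n
  refine ⟨Tᵐᵒᵖ, inferInstance, Finite.of_injective _ MulOpposite.unop_injective, ?_, MulOpposite.op x, MulOpposite.op y,
    fun h => hxy (MulOpposite.op_injective h), fun φ => ?_⟩
  · intro F hF
    obtain ⟨U, h1, h2, h3⟩ := hT (F.image MulOpposite.unop) (Finset.card_image_le.trans hF)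
    refine ⟨{t | t.unop ∈ U}, fun a ha => h1 _ (Finset.mem_image_of_mem _ ha),
      fun a ha b hb => h2 _ hb _ ha, fun u hu v hv huv => ?_⟩
    obtain ⟨φ, h4, h5⟩ := h3 _ hu _ hv (fun h => huv (MulOpposite.unop_injective h))
    refine ⟨fun t => toR (φ t.unop), fun a ha b hb => ?_, fun h => h5 (toR_inj h)⟩
    show toR (φ (a * b).unop) = toR (φ a.unop) * toR (φ b.unop)
    rw [MulOpposite.unop_mul, h4 _ hb _ ha, toR_mul]
  · let ψ : T →ₙ* Sᵐᵒᵖ := ⟨fun t => MulOpposite.op (φ (MulOpposite.op t)), fun a b => by
      rw [MulOpposite.op_mul, map_mul, MulOpposite.op_mul]⟩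
    exact MulOpposite.op_injective (hcol ψ)

theorem main (S : Type u) [Semigroup S] [Finite S]
    (h : (∃ ι : L →ₙ* S, Function.Injective ι) ∨ (∃ ι : R →ₙ* S, Function.Injective ι)) :
    ¬ FinitelyQBased S := by
  rcases h with ⟨ι, hι⟩ | ⟨ι, hι⟩
  · exact not_finitelyQBased ι hι (exists_theta S)
  · exact not_finitelyQBased ι hι (exists_theta_op S)

end Pool.Agent.H376Z.QB
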